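import Pool.Agent.H95.GY.Targets

/-!
# MP_c39b0e_gt: module HS (sums of one-parameter groups)
-/

set_option autoImplicit false

open Filter Topology Set

universe u

namespace Pool.Agent.H42.GY

open Pool.Agent.H95.GY

section

variable {Q : Type u} [Group Q] [TopologicalSpace Q]

theorem hasD_scale {φ : Q → ℝ} {X : ℝ → Q} {D : Q → ℝ} (h : HasD φ X D) (a : ℝ) :
    HasD φ (fun s => X (a * s)) (fun x => a * D x) := by
  obtain ⟨hX, c, hc, t₀, ht₀, hb⟩ := h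
  refine ⟨hX.scale a, c * (a ^ 2 + 1), by positivity, t₀ / (|a| + 1), by positivity, ?_⟩
  intro t x ht
  have h1 : |a * t| ≤ t₀ := by
    rw [abs_mul]
    rw [le_div_iff₀ (by positivity)] at ht
    nlinarith [abs_nonneg t, abs_nonneg a]
  have h2 := hb (a * t) x h1
  have h3 : φ (X (a * t) * x) - φ x - t * (a * D x) = φ (X (a * t) * x) - φ x - a * t * D x := by
    ring
  rw [h3]
  refine h2.trans ?_
  have h4 : c * (a * t) ^ 2 = c * a ^ 2 * t ^ 2 := by ring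
  rw [h4]
  nlinarith [sq_nonneg t, mul_nonneg hc.le (sq_nonneg t)]

/-- the derivative of the products -/
theorem tendsto_quot {ν φ : Q → ℝ} {r C : ℝ} (hG : GD ν φ r C) {X Y : ℝ → Q} {D D' : Q → ℝ}
    (hX : HasD φ X D) (hY : HasD φ Y D') {ρ₁ ρ₂ : ℝ} (h₁ : 0 ≤ ρ₁)
    (hρ₁ : ∀ t, ν (X t) ≤ ρ₁ * |t|) (hρ₂ : ∀ t, ν (Y t) ≤ ρ₂ * |t|) (t : ℝ) (x : Q) :
    Tendsto (fun n : ℕ => (n : ℝ) * (φ (X (t / n) * Y (t / n) * x) - φ x)) atTop
      (𝓝 (t * (D x + D' x))) := by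
  obtain ⟨hXo, c₁, hc₁, t₁, ht₁, hb₁⟩ := hX
  obtain ⟨hYo, c₂, hc₂, t₂, ht₂, hb₂⟩ := hY
  have hrp := hG.r_pos
  have hC : 0 ≤ C := zero_le_one.trans hG.C_pos
  have hlim : Tendsto (fun n : ℕ => ((C * ρ₁ * ρ₂ + c₁ + c₂) * t ^ 2) / (n : ℝ)) atTop (𝓝 0) :=
    tendsto_const_div_atTop_nhds_zero_nat _
  have hs : Tendsto (fun n : ℕ => |t| / (n : ℝ)) atTop (𝓝 0) :=
    tendsto_const_div_atTop_nhds_zero_nat _
  have hs' : Tendsto (fun n : ℕ => ρ₁ * (|t| / (n : ℝ))) atTop (𝓝 0) := by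
    simpa using hs.const_mul ρ₁
  rw [tendsto_iff_dist_tendsto_zero]
  refine squeeze_zero' (Eventually.of_forall fun n => dist_nonneg) ?_ hlim
  filter_upwards [hs.eventually (gt_mem_nhds ht₁), hs.eventually (gt_mem_nhds ht₂),
    hs'.eventually (gt_mem_nhds hrp), eventually_gt_atTop 0] with n hn1 hn2 hn3 hn0
  have hn : (0 : ℝ) < n := by exact_mod_cast hn0
  have habs : |t / (n : ℝ)| = |t| / n := by rw [abs_div, abs_of_pos hn]
  have e1 := hb₁ (t / n) x (by rw [habs]; exact hn1.le)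
  have e2 := hb₂ (t / n) x (by rw [habs]; exact hn2.le)
  have hνX : ν (X (t / n)) ≤ ρ₁ * (|t| / n) := by
    have := hρ₁ (t / n); rwa [habs] at this
  have hνY : ν (Y (t / n)) ≤ ρ₂ * (|t| / n) := by
    have := hρ₂ (t / n); rwa [habs] at this
  have e3 := hG.sec (X (t / n)) (Y (t / n)) x (hνX.trans hn3.le)
  have e4 : C * ν (X (t / n)) * ν (Y (t / n)) ≤ C * (ρ₁ * (|t| / n)) * (ρ₂ * (|t| / n)) := by
    have ha : C * ν (X (t / n)) ≤ C * (ρ₁ * (|t| / n)) := mul_le_mul_of_nonneg_left hνX hC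
    refine mul_le_mul ha hνY (hG.nonneg _) ?_
    have : 0 ≤ ρ₁ * (|t| / n) := mul_nonneg h₁ (div_nonneg (abs_nonneg _) hn.le)
    exact mul_nonneg hC this
  have e5 : C * (ρ₁ * (|t| / n)) * (ρ₂ * (|t| / n)) = C * ρ₁ * ρ₂ * (t / n) ^ 2 := by
    have : (|t| / (n : ℝ)) ^ 2 = (t / n) ^ 2 := by rw [div_pow, div_pow, sq_abs]
    calc C * (ρ₁ * (|t| / n)) * (ρ₂ * (|t| / n)) = C * ρ₁ * ρ₂ * (|t| / (n : ℝ)) ^ 2 := by ring
      _ = _ := by rw [this]
  have e6 : |φ (X (t / n) * Y (t / n) * x) - φ x - (t / n) * (D x + D' x)| ≤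
      (C * ρ₁ * ρ₂ + c₁ + c₂) * (t / n) ^ 2 := by
    have hsplit : φ (X (t / n) * Y (t / n) * x) - φ x - (t / n) * (D x + D' x) =
        (φ (X (t / n) * Y (t / n) * x) - φ (X (t / n) * x) - φ (Y (t / n) * x) + φ x) +
        (φ (X (t / n) * x) - φ x - t / n * D x) + (φ (Y (t / n) * x) - φ x - t / n * D' x) := by
      ring
    rw [hsplit]
    refine (abs_add_three _ _ _).trans ?_
    have := e3.trans (e4.trans_eq e5)
    linarith
  rw [Real.dist_eq]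
  have e7 : (n : ℝ) * (φ (X (t / n) * Y (t / n) * x) - φ x) - t * (D x + D' x) =
      n * (φ (X (t / n) * Y (t / n) * x) - φ x - (t / n) * (D x + D' x)) := by
    field_simp
  rw [e7, abs_mul, abs_of_pos hn]
  have e8 : ((C * ρ₁ * ρ₂ + c₁ + c₂) * t ^ 2) / (n : ℝ) =
      n * ((C * ρ₁ * ρ₂ + c₁ + c₂) * (t / n) ^ 2) := by
    field_simp
  rw [e8]
  exact mul_le_mul_of_nonneg_left e6 hn.le

end

/-- (HS) sums -/
theorem pf_HS (hULM : T_ULM.{u}) (hHB : T_HB.{u}) (hHU : T_HU.{u}) (hRHO : T_RHO.{u}) :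
    T_HS.{u} := by
  intro Q _ _ _ _ ν φ r C hG X Y D D' hX hY
  have _ := hHB
  obtain ⟨ρ₁, h₁, hρ₁⟩ := hRHO Q ν r C hG.toPreG X hX.1
  obtain ⟨ρ₂, h₂, hρ₂⟩ := hRHO Q ν r C hG.toPreG Y hY.1
  have key : ∀ (t : ℝ) (ω : Ultrafilter ℕ), (ω : Filter ℕ) ≤ atTop →
      ∃ Z : ℝ → Q, HasD φ Z (fun x => t * (D x + D' x)) ∧
        Tendsto (fun n : ℕ => (X (t / n) * Y (t / n)) ^ n) ω (𝓝 (Z 1)) := by
    intro t ω hω
    obtain ⟨Z, E, hZ, hlim, -, hE⟩ := hULM Q ν φ r C hG ω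
      (fun n => X (t / n) * Y (t / n)) id ((ρ₁ + ρ₂) * |t|) hω (by
        filter_upwards [hω (eventually_gt_atTop 0)] with n hn0
        have hn : (0 : ℝ) < n := by exact_mod_cast hn0
        have habs : |t / (n : ℝ)| = |t| / n := by rw [abs_div, abs_of_pos hn]
        have a1 := hG.mul (X (t / n)) (Y (t / n))
        have a2 := hρ₁ (t / n)
        have a3 := hρ₂ (t / n)
        rw [habs] at a2 a3
        show (n : ℝ) * ν (X (t / n) * Y (t / n)) ≤ (ρ₁ + ρ₂) * |t|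
        calc (n : ℝ) * ν (X (t / n) * Y (t / n)) ≤ n * (ρ₁ * (|t| / n) + ρ₂ * (|t| / n)) :=
              mul_le_mul_of_nonneg_left (by linarith) hn.le
          _ = (ρ₁ + ρ₂) * |t| := by field_simp)
    have hEe : E = fun x => t * (D x + D' x) := by
      funext x
      have l1 : Tendsto (fun n : ℕ => (n : ℝ) * (φ (X (t / n) * Y (t / n) * x) - φ x)) ω
          (𝓝 (t * (D x + D' x))) :=
        (tendsto_quot hG hX hY h₁ hρ₁ hρ₂ t x).mono_left hω
      have l2 : Tendsto (fun n : ℕ => (n : ℝ) * (φ (X (t / n) * Y (t / n) * x) - φ x)) ω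
          (𝓝 (E x)) := by
        rw [Metric.tendsto_nhds]
        intro ε hε
        filter_upwards [hE (ε / 2) (half_pos hε)] with n hn
        rw [Real.dist_eq]
        exact (hn x).trans_lt (half_lt_self hε)
      exact tendsto_nhds_unique l2 l1
    rw [hEe] at hZ
    refine ⟨Z, hZ, ?_⟩
    have := hlim 1 zero_le_one
    simpa using this
  obtain ⟨Z, hZ, -⟩ := key 1 (hyperfilter ℕ) (by
    rw [← Nat.cofinite_eq_atTop]; exact hyperfilter_le_cofinite)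
  have hZ' : HasD φ Z (fun x => D x + D' x) := by simpa using hZ
  refine ⟨Z, hZ', fun t => ?_⟩
  rw [tendsto_iff_ultrafilter]
  intro ω hω
  obtain ⟨Zt, hZt, hl⟩ := key t ω hω
  have heq : Zt = fun s => Z (t * s) := hHU Q ν φ r C hG _ _ _ hZt (hasD_scale hZ' t)
  rw [heq] at hl
  simpa using hl

end Pool.Agent.H42.GY
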