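import Pool.Agent.H95.GY.Targets

/-!
# MP_c39b0e_gt: module N2 (the lemma of Gleason)
-/

set_option autoImplicit false

open Filter Topology Set
open scoped Pointwise

universe u

namespace Pool.Agent.H42.GY

open Pool.Agent.H95.GY

section

variable {Q : Type u} [Group Q]

theorem esc_nonneg (U : Set Q) (g : Q) : 0 ≤ esc U g := by
  unfold esc
  refine Real.sInf_nonneg ?_
  rintro x ⟨n, rfl, -⟩
  positivity

theorem esc_inv {U : Set Q} (hU : ∀ g ∈ U, g⁻¹ ∈ U) (g : Q) : esc U g⁻¹ = esc U g := by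
  unfold esc
  congr 1
  ext x
  constructor
  · rintro ⟨n, hx, h⟩
    refine ⟨n, hx, fun i hi => ?_⟩
    have := hU _ (h i hi)
    rwa [inv_pow, inv_inv] at this
  · rintro ⟨n, hx, h⟩
    refine ⟨n, hx, fun i hi => ?_⟩
    have := hU _ (h i hi)
    rwa [inv_pow]

theorem esc_ge {U : Set Q} (h1 : (1 : Q) ∈ U) {g : Q} {n : ℕ} (hn : g ^ (n + 1) ∉ U) :
    1 / ((n : ℝ) + 1) ≤ esc U g := by
  unfold esc
  refine le_csInf ⟨1, 0, by norm_num, fun i hi => ?_⟩ ?_
  · rw [Nat.le_zero.1 hi, pow_zero]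
    exact h1
  · rintro x ⟨m, rfl, hm⟩
    have hmn : m ≤ n := by
      by_contra h
      exact hn (hm (n + 1) (by omega))
    have : (m : ℝ) ≤ n := by exact_mod_cast hmn
    apply one_div_le_one_div_of_le
    · positivity
    · linarith

theorem bw_mono {S : Set Q} {r : Q → ℝ} {s t : ℝ} (h : s ≤ t) : Bw S r s ⊆ Bw S r t := by
  rintro x ⟨l, h1, h2, h3⟩
  exact ⟨l, h1, h2.trans h, h3⟩

theorem one_mem_bw {S : Set Q} {r : Q → ℝ} {s : ℝ} (h : 0 ≤ s) : (1 : Q) ∈ Bw S r s :=
  ⟨[], by simp, by simpa using h, by simp⟩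

theorem bw_mul {S : Set Q} {r : Q → ℝ} {s t : ℝ} : Bw S r s * Bw S r t ⊆ Bw S r (s + t) := by
  rintro x ⟨a, ⟨l, h1, h2, rfl⟩, b, ⟨l', h1', h2', rfl⟩, rfl⟩
  refine ⟨l ++ l', ?_, ?_, ?_⟩
  · intro g hg
    rcases List.mem_append.1 hg with h | h
    · exact h1 g h
    · exact h1' g h
  · rw [List.map_append, List.sum_append]
    exact add_le_add h2 h2'
  · simp

theorem bw_inv {r : Q → ℝ} (hr : ∀ g, r g⁻¹ = r g) {s : ℝ} {x : Q} (hx : x ∈ Bw univ r s) :
    x⁻¹ ∈ Bw univ r s := by
  obtain ⟨l, -, h2, rfl⟩ := hx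
  refine ⟨(l.map fun y => y⁻¹).reverse, fun g _ => mem_univ g, ?_, ?_⟩
  · rw [List.map_reverse, List.sum_reverse, List.map_map]
    have : (r ∘ fun y : Q => y⁻¹) = r := funext fun y => hr y
    rw [this]
    exact h2
  · rw [List.prod_inv_reverse]

theorem bw_scale {r : Q → ℝ} {a : ℝ} (ha : 0 < a) (T : ℝ) :
    Bw univ (fun g => r g / a) T = Bw univ r (T * a) := by
  have hsum : ∀ l : List Q, (l.map fun g => r g / a).sum = (l.map r).sum / a := by
    intro l
    induction l with
    | nil => simp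
    | cons g l ih => rw [List.map_cons, List.sum_cons, ih, List.map_cons, List.sum_cons, add_div]
  ext x
  constructor
  · rintro ⟨l, h1, h2, h3⟩
    rw [hsum, div_le_iff₀ ha] at h2
    exact ⟨l, h1, h2, h3⟩
  · rintro ⟨l, h1, h2, h3⟩
    refine ⟨l, h1, ?_, h3⟩
    rwa [hsum, div_le_iff₀ ha]

theorem sum_add_const (r : Q → ℝ) (a : ℝ) (l : List Q) :
    (l.map fun g => r g + a).sum = (l.map r).sum + l.length * a := by
  induction l with
  | nil => simp
  | cons g l ih =>
    rw [List.map_cons, List.sum_cons, ih, List.map_cons, List.sum_cons, List.length_cons]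
    push_cast
    ring

theorem bw_small {r : Q → ℝ} {a s : ℝ} (hr : ∀ g, a ≤ r g) (ha : 0 < a) (hs : s < a) :
    Bw univ r s ⊆ {1} := by
  rintro x ⟨l, -, h2, rfl⟩
  cases l with
  | nil => simp
  | cons g l =>
    exfalso
    rw [List.map_cons, List.sum_cons] at h2
    have : 0 ≤ (l.map r).sum := by
      refine List.sum_nonneg ?_
      intro y hy
      obtain ⟨z, -, rfl⟩ := List.mem_map.1 hy
      exact ha.le.trans (hr z)
    linarith [hr g]

end

/-- the key property of the exit function -/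
theorem esc_pow {Q : Type u} [Group Q] [TopologicalSpace Q] {U V : Set Q} (hU : Nb U)
    (h1 : (1 : Q) ∈ V) {ε : ℝ} (hε1 : ε ≤ 1)
    (hN : ∀ (g : Q) (n : ℕ), (∀ i ≤ n, g ^ i ∈ U) → ∀ i : ℕ, (i : ℝ) ≤ ε * n → g ^ i ∈ V)
    (g : Q) (j : ℕ) (hj : j * esc U g < ε / 2) : g ^ j ∈ V := by
  have hU1 : (1 : Q) ∈ U := mem_of_mem_nhds hU.nhd
  by_cases hall : ∀ i : ℕ, g ^ i ∈ U
  · have hbot : Subgroup.zpowers g = ⊥ := by
      apply hU.nss
      rintro x ⟨k, rfl⟩
      obtain ⟨m, rfl | rfl⟩ := k.eq_nat_or_neg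
      · simpa using hall m
      · have := hU.symm _ (hall m)
        simpa using this
    have hg1 : g = 1 := by
      have : g ∈ Subgroup.zpowers g := Subgroup.mem_zpowers g
      rw [hbot] at this
      exact Subgroup.mem_bot.1 this
    rw [hg1, one_pow]
    exact h1
  · push Not at hall
    classical
    have hf := Nat.find_spec hall
    have hlt := fun i (hi : i < Nat.find hall) => not_not.1 (Nat.find_min hall hi)
    obtain ⟨n, hn⟩ : ∃ n, Nat.find hall = n + 1 := by
      refine Nat.exists_eq_succ_of_ne_zero fun h0 => ?_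
      rw [h0, pow_zero] at hf
      exact hf hU1
    rw [hn] at hf hlt
    have he := esc_ge hU1 hf
    have hj0 : (0 : ℝ) ≤ j := Nat.cast_nonneg j
    have hnp : (0 : ℝ) < (n : ℝ) + 1 := by positivity
    have hlt2 : (j : ℝ) < ε / 2 * ((n : ℝ) + 1) := by
      have h3 : (j : ℝ) * (1 / ((n : ℝ) + 1)) < ε / 2 :=
        lt_of_le_of_lt (mul_le_mul_of_nonneg_left he hj0) hj
      rw [mul_one_div, div_lt_iff₀ hnp] at h3
      exact h3
    rcases Nat.eq_zero_or_pos n with h0 | h0
    · subst h0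
      have : (j : ℝ) < 1 := by
        have : ε / 2 * (((0 : ℕ) : ℝ) + 1) ≤ 1 / 2 := by
          simp; linarith
        linarith
      have : j = 0 := by
        have h4 : j < 1 := by exact_mod_cast this
        omega
      rw [this, pow_zero]
      exact h1
    · refine hN g n (fun i hi => hlt i (by omega)) j ?_
      have h5 : (1 : ℝ) ≤ n := by exact_mod_cast h0
      nlinarith

/-- (N2) the lemma of Gleason -/
theorem pf_N2 (hEL : T_EL.{u}) (hUL : T_UL.{u, 0}) (hN1 : T_N1.{u}) : T_N2.{u} := by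
  intro Q _ _ _ _ _ U hU
  have hU1 : (1 : Q) ∈ U := mem_of_mem_nhds hU.nhd
  by_contra hcon
  push Not at hcon
  -- the lists
  have hl : ∀ m : ℕ, ∃ l : List Q, (l.map (esc U)).sum ≤ 1 / ((m : ℝ) + 1) ∧ l.prod ∉ U :=
    fun m => hcon _ (by positivity)
  -- the radii
  have hs : ∀ m : ℕ, ∃ (a s : ℝ), 0 < a ∧ 0 < s ∧ s ≤ 2 / ((m : ℝ) + 1) ∧
      Bw univ (fun g => esc U g + a) s ⊆ U ∧ ¬ Bw univ (fun g => esc U g + a) (2 * s) ⊆ U := by
    intro m
    obtain ⟨l, hl1, hl2⟩ := hl m
    set a : ℝ := 1 / (((m : ℝ) + 1) * ((l.length : ℝ) + 1)) with ha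
    have hapos : 0 < a := by positivity
    have hsum : (l.map fun g => esc U g + a).sum ≤ 2 / ((m : ℝ) + 1) := by
      have e1 : (l.map fun g => esc U g + a).sum = (l.map (esc U)).sum + l.length * a :=
        sum_add_const (esc U) a l
      have e2 : (l.length : ℝ) * a ≤ 1 / ((m : ℝ) + 1) := by
        rw [ha, mul_one_div, div_le_div_iff₀ (by positivity) (by positivity)]
        have : (0 : ℝ) ≤ (m : ℝ) + 1 := by positivity
        nlinarith
      rw [e1]
      have e3 : 2 / ((m : ℝ) + 1) = 1 / ((m : ℝ) + 1) + 1 / ((m : ℝ) + 1) := by ring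
      rw [e3]
      exact add_le_add hl1 e2
    have hnot : ¬ Bw univ (fun g => esc U g + a) (2 / ((m : ℝ) + 1)) ⊆ U :=
      fun h => hl2 (h ⟨l, fun g _ => mem_univ g, hsum, rfl⟩)
    have h0 : Bw univ (fun g => esc U g + a) (a / 2) ⊆ U := by
      refine (bw_small (a := a) (fun g => ?_) hapos (half_lt_self hapos)).trans ?_
      · linarith [esc_nonneg U g]
      · rintro x rfl
        exact hU1
    have hex : ∃ k : ℕ, ¬ Bw univ (fun g => esc U g + a) (a / 2 * 2 ^ k) ⊆ U := by
      obtain ⟨k, hk⟩ := pow_unbounded_of_one_lt (2 / ((m : ℝ) + 1) / (a / 2)) (one_lt_two)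
      refine ⟨k, fun h => hnot ((bw_mono ?_).trans h)⟩
      rw [div_lt_iff₀ (half_pos hapos)] at hk
      linarith
    classical
    have hf := Nat.find_spec hex
    have hlt := fun i (hi : i < Nat.find hex) => not_not.1 (Nat.find_min hex hi)
    obtain ⟨n, hn⟩ : ∃ n, Nat.find hex = n + 1 := by
      refine Nat.exists_eq_succ_of_ne_zero fun h0' => ?_
      rw [h0', pow_zero, mul_one] at hf
      exact hf h0
    rw [hn] at hf hlt
    have hU' := hlt n (Nat.lt_succ_self n)
    refine ⟨a, a / 2 * 2 ^ n, hapos, by positivity, ?_, hU', ?_⟩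
    · by_contra hc
      exact hnot ((bw_mono (not_le.1 hc).le).trans hU')
    · rw [pow_succ] at hf
      have e : 2 * (a / 2 * 2 ^ n) = a / 2 * (2 ^ n * 2) := by ring
      rw [e]
      exact hf
  choose a s ha hspos hs2 hsU hsN using hs
  have hs0 : Tendsto s atTop (𝓝 0) := by
    have h2 : Tendsto (fun m : ℕ => 2 / ((m : ℝ) + 1)) atTop (𝓝 0) := by
      have := (tendsto_one_div_add_atTop_nhds_zero_nat (𝕜 := ℝ)).const_mul 2
      simpa [div_eq_mul_inv] using this
    exact squeeze_zero (fun m => (hspos m).le) hs2 h2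
  have hrinv : ∀ m g, esc U g⁻¹ + a m = esc U g + a m := fun m g => by rw [esc_inv hU.symm]
  -- the claim
  have claim : ∀ W ∈ 𝓝 (1 : Q), ∀ᶠ m in atTop, Bw univ (fun g => esc U g + a m) (2 * s m) ⊆
      Bw univ (fun g => esc U g + a m) (s m) * W := by
    intro W hW
    obtain ⟨V, hV, L, hL, hVL⟩ := hEL Q U W hU.compact hW 2 two_pos
    obtain ⟨ε₀, hε₀, hN⟩ := hN1 Q U hU V hV
    have hV1 : (1 : Q) ∈ V := mem_of_mem_nhds hV
    set ε : ℝ := min ε₀ 1 with hεdef
    have hε : 0 < ε := lt_min hε₀ one_pos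
    have hε1 : ε ≤ 1 := min_le_right _ _
    have hεN : ∀ (g : Q) (n : ℕ), (∀ i ≤ n, g ^ i ∈ U) → ∀ i : ℕ, (i : ℝ) ≤ ε * n →
        g ^ i ∈ V := fun g n h i hi => hN g n h i (hi.trans
      (mul_le_mul_of_nonneg_right (min_le_left _ _) (Nat.cast_nonneg n)))
    have hLs : Tendsto (fun m => L * s m) atTop (𝓝 0) := by simpa using hs0.const_mul L
    filter_upwards [hLs.eventually (gt_mem_nhds (half_pos hε))] with m hm
    have hsm := hspos m
    have hrpos : ∀ g : Q, 0 < (esc U g + a m) / s m := fun g =>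
      div_pos (by linarith [esc_nonneg U g, ha m]) hsm
    have h := hVL univ (fun g => (esc U g + a m) / s m)
      (fun g _ => ⟨mem_univ _, hrpos g, by rw [hrinv m g]⟩)
      (by
        rw [bw_scale (r := fun g => esc U g + a m) hsm, one_mul]
        exact hsU m)
      (fun g _ => by
        refine ⟨⌈L / ((esc U g + a m) / s m)⌉₊, ?_, fun j hj => ?_⟩
        · have := Nat.le_ceil (L / ((esc U g + a m) / s m))
          rwa [div_le_iff₀ (hrpos g)] at this
        · have hj' := Nat.lt_ceil.1 hj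
          rw [lt_div_iff₀ (hrpos g)] at hj'
          refine esc_pow hU hV1 hε1 hεN g j ?_
          have h6 : (j : ℝ) * (esc U g + a m) < L * s m := by
            have h7 : (j : ℝ) * ((esc U g + a m) / s m) = (j : ℝ) * (esc U g + a m) / s m := by
              ring
            rw [h7, div_lt_iff₀ hsm] at hj'
            exact hj'
          have h8 : (0 : ℝ) ≤ j * a m := mul_nonneg (Nat.cast_nonneg j) (ha m).le
          nlinarith)
    rw [bw_scale (r := fun g => esc U g + a m) hsm,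
      bw_scale (r := fun g => esc U g + a m) hsm, one_mul] at h
    exact h
  -- ultralimit
  have hωle : ((hyperfilter ℕ : Ultrafilter ℕ) : Filter ℕ) ≤ atTop := by
    rw [← Nat.cofinite_eq_atTop]
    exact hyperfilter_le_cofinite
  obtain ⟨E, -, hEU, -, hE⟩ := hUL Q ℕ (hyperfilter ℕ) U
    (fun m => Bw univ (fun g => esc U g + a m) (s m)) hU.compact
    (Eventually.of_forall hsU) (fun m => one_mem_bw (hspos m).le)
    (fun m g hg => bw_inv (hrinv m) hg)
    (fun W hW => by
      filter_upwards [hωle (claim W hW)] with m hm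
      refine (bw_mul.trans_eq ?_).trans hm
      rw [two_mul])
  have hEb : E = ⊥ := hU.nss E hEU
  have hy : ∀ m, ∃ y ∈ Bw univ (fun g => esc U g + a m) (2 * s m), y ∉ U := fun m =>
    not_subset.1 (hsN m)
  choose y hy1 hy2 using hy
  obtain ⟨x, hx, hlim⟩ := hE y (fun W hW => by
    filter_upwards [hωle (claim W hW)] with m hm
    exact hm (hy1 m))
  rw [hEb, Subgroup.mem_bot] at hx
  rw [hx] at hlim
  have hev := hlim.eventually hU.nhd
  obtain ⟨m, hm⟩ := hev.exists
  exact hy2 m hm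

end Pool.Agent.H42.GY
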